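import Pool.Agent.Lib.MP_1a91b9_nuT.DG.Cna

/-!
# DG (7.4): group determinant and characters

JOB CHARS. PROOF (complete; helper30). Make `G` a commutative group: `letI : CommGroup G := { (inferInstance : Group G) with mul_comm := hc }`. Let `ι` be
the (finite) type of the homomorphisms `G →* ℂˣ` (or `AddChar (Additive G) ℂ`, which has a `Fintype` instance and orthogonality lemmas in Mathlib:
`AddChar.card_eq`, `AddChar.sum_apply_eq_ite`, `AddChar.wInner_cWeight_self..`, `AddChar.linearIndependent`); it has the same cardinality as `G`.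
(a) `‖χ g‖ = 1`: `χ g` is a root of unity (finite group; `Complex.norm_eq_one_of_pow_eq_one`).
(b) determinant. Let `C` be the `ι × G` matrix `C χ g = χ g`; it is square after a bijection `ι ≃ G` and invertible (orthogonality of characters, or
`linearIndependent`). `X g h = x (g * h)`. `(C X) χ h = Σ_g χ g x (g h) = χ h⁻¹ Σ_g χ g x g = (conj or inverse of χ h) * L_χ`, so `C X = diag(L_χ) C'`, `C' χ h =
χ h⁻¹ = (χ⁻¹) h`: `C'` is `C` with the rows permuted by `χ ↦ χ⁻¹`. So `det C * det X = (Π L_χ) * sign * det C`, cancel `det C`; `ε` is the sign of the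
permutation `χ ↦ χ⁻¹` (it does not depend on `x`).
(c) `Π_χ (1 - χ g y) = (1 - y^f)^(n/f)`, `f = orderOf g`, `n = card G` (`f` divides `n`): let `T` be the translation matrix of `g` (`T a b = 1` if `a = g b`,
else `0`), `C T = diag(χ g) C` (up to inverse), so `det (z - T) = Π_χ (z - χ g)` for all `z : ℂ` (or inverse characters, which is the same product); by
`charpoly_Lt` (DG/Cna.lean; map the integral matrix to `ℂ`) it is `(z^f - 1)^(n/f)`. For `y ≠ 0` put `z = 1/y` and multiply by `y^n`; `y = 0` trivial.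
(Alternative for (c): the map `χ ↦ χ g` is a homomorphism onto the `f`-th roots of unity with fibres of cardinality `n/f`, `Π_{ζ^f=1} (1 - ζ y) = 1 - y^f`.)
-/

set_option autoImplicit false

namespace Pool.Agent.Lib.MP_1a91b9_nuT.DG

variable [CD]

open NumberField IsDedekindDomain WeierstrassCurve DB

noncomputable section

private def CHARS_chi {G : Type} [CommGroup G] (ψ : AddChar (Additive G) ℂ) : G →* ℂ where
  toFun g := ψ (Additive.ofMul g)
  map_one' := ψ.map_zero_eq_one
  map_mul' _ _ := ψ.map_add_eq_mul _ _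

private def CHARS_M {G : Type} [CommGroup G] (e : G ≃ AddChar (Additive G) ℂ) : Matrix G G ℂ :=
  Matrix.of fun a g => CHARS_chi (e a) g

private theorem CHARS_det {G : Type} [CommGroup G] [Fintype G] [DecidableEq G]
    (e : G ≃ AddChar (Additive G) ℂ) : (CHARS_M e).det ≠ 0 := by
  have h1 : LinearIndependent ℂ (fun a : G => (CHARS_M e).row a) :=
    (AddChar.linearIndependent (Additive G) ℂ).comp e e.injective
  have h2 : IsUnit (CHARS_M e) := Matrix.linearIndependent_rows_iff_isUnit.1 h1
  exact ((Matrix.isUnit_iff_isUnit_det _).1 h2).ne_zero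

private theorem CHARS_b {G : Type} [CommGroup G] [Fintype G] [DecidableEq G]
    (e : G ≃ AddChar (Additive G) ℂ) (x : G → ℂ) :
    Matrix.det (Matrix.of fun g h : G => x (g * h)) =
      ((Equiv.Perm.sign (e.trans ((Equiv.inv _).trans e.symm)) : ℤ) : ℂ) *
        ∏ a : G, ∑ g : G, CHARS_chi (e a) g * x g := by
  set σ : Equiv.Perm G := e.trans ((Equiv.inv _).trans e.symm) with hσ
  have h1 : CHARS_M e * (Matrix.of fun g h : G => x (g * h)) =
      Matrix.diagonal (fun a : G => ∑ g : G, CHARS_chi (e a) g * x g) * (CHARS_M e).submatrix σ id := by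
    ext a h
    rw [Matrix.mul_apply, Matrix.diagonal_mul, Matrix.submatrix_apply, Finset.sum_mul]
    rw [← Equiv.sum_comp (Equiv.mulRight h⁻¹) (fun g => CHARS_M e a g * (Matrix.of fun g h : G => x (g * h)) g h)]
    refine Finset.sum_congr rfl fun g _ => ?_
    have h2 : CHARS_M e (σ a) (id h) = CHARS_chi (e a) h⁻¹ := by
      show (e (e.symm (e a)⁻¹)) (Additive.ofMul h) = (e a) (Additive.ofMul h⁻¹)
      rw [Equiv.apply_symm_apply, AddChar.inv_apply]
      rfl
    rw [h2, Equiv.coe_mulRight, Matrix.of_apply, inv_mul_cancel_right]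
    show CHARS_chi (e a) (g * h⁻¹) * x g = _
    rw [map_mul]
    ring
  have h3 := congrArg Matrix.det h1
  rw [Matrix.det_mul, Matrix.det_mul, Matrix.det_diagonal, Matrix.det_permute] at h3
  refine mul_left_cancel₀ (CHARS_det e) ?_
  rw [h3]
  ring

private theorem CHARS_T {G : Type} [CommGroup G] [Fintype G] [DecidableEq G]
    (e : G ≃ AddChar (Additive G) ℂ) (g : G) (y : ℂ) :
    Matrix.det (Matrix.scalar G y - Matrix.of fun a b : G => if a = g * b then (1 : ℂ) else 0) =
      ∏ a : G, (y - CHARS_chi (e a) g) := by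
  have h1 : CHARS_M e * (Matrix.scalar G y - Matrix.of fun a b : G => if a = g * b then (1 : ℂ) else 0) =
      Matrix.diagonal (fun a : G => y - CHARS_chi (e a) g) * CHARS_M e := by
    rw [Matrix.mul_sub]
    ext a h
    rw [Matrix.sub_apply, Matrix.diagonal_mul, Matrix.mul_apply (M := CHARS_M e) (N := Matrix.of _)]
    have h2 : (CHARS_M e * Matrix.scalar G y) a h = y * CHARS_M e a h := by
      rw [Matrix.scalar_apply, Matrix.mul_diagonal]
      ring
    have h3 : ∑ j : G, CHARS_M e a j * (Matrix.of fun a b : G => if a = g * b then (1 : ℂ) else 0) j h =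
        CHARS_chi (e a) g * CHARS_M e a h := by
      rw [Finset.sum_eq_single (g * h)]
      · rw [Matrix.of_apply, if_pos rfl, mul_one]
        show CHARS_chi (e a) (g * h) = CHARS_chi (e a) g * CHARS_chi (e a) h
        rw [map_mul]
      · intro b _ hb
        rw [Matrix.of_apply, if_neg hb, mul_zero]
      · intro hn
        exact absurd (Finset.mem_univ _) hn
    rw [h2, h3]
    ring
  have h4 := congrArg Matrix.det h1
  rw [Matrix.det_mul, Matrix.det_mul, Matrix.det_diagonal, mul_comm] at h4
  exact mul_right_cancel₀ (CHARS_det e) h4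

open Polynomial in
private theorem CHARS_cp {G : Type} [CommGroup G] [Fintype G] [DecidableEq G] (g : G) {n n0 : ℕ}
    (hg : orderOf g = n) (hn : n0 * n = Fintype.card G) :
    (Matrix.of fun a b : G => if a = g * b then (1 : ℂ) else 0).charpoly = ((X : ℂ[X]) ^ n - 1) ^ n0 := by
  have h1 : (Matrix.of fun a b : G => if a = g * b then (1 : ℂ) else 0) =
      (LinearMap.toMatrix' (Lt g)).map (Int.castRingHom ℂ) := by
    ext a b
    rw [Matrix.map_apply, LinearMap.toMatrix'_apply, Matrix.of_apply]
    show _ = (Int.castRingHom ℂ) ((Pi.single b (1 : ℤ) : G → ℤ) (g⁻¹ * a))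
    by_cases h : a = g * b
    · rw [if_pos h, h, inv_mul_cancel_left, Pi.single_eq_same, map_one]
    · have h' : g⁻¹ * a ≠ b := fun h2 => h (by rw [← h2, mul_inv_cancel_left])
      rw [if_neg h, Pi.single_eq_of_ne h', map_zero]
  rw [h1, Matrix.charpoly_map]
  have h2 : (LinearMap.toMatrix' (Lt g)).charpoly = LinearMap.charpoly (Lt g) :=
    LinearMap.charpoly_toMatrix (Lt g) (Pi.basisFun ℤ G)
  rw [h2, charpoly_Lt g hg hn]
  simp

private theorem CHARS_c {G : Type} [CommGroup G] [Fintype G] [DecidableEq G]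
    (e : G ≃ AddChar (Additive G) ℂ) (g : G) (y : ℂ) :
    ∏ a : G, (1 - CHARS_chi (e a) g * y) = (1 - y ^ orderOf g) ^ (Fintype.card G / orderOf g) := by
  have hpos : 0 < orderOf g := orderOf_pos g
  have hdvd : orderOf g ∣ Fintype.card G := orderOf_dvd_card
  have hn : Fintype.card G / orderOf g * orderOf g = Fintype.card G := Nat.div_mul_cancel hdvd
  rcases eq_or_ne y 0 with hy | hy
  · subst hy
    rw [zero_pow hpos.ne', sub_zero, one_pow]
    refine Finset.prod_eq_one fun a _ => ?_
    rw [mul_zero, sub_zero]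
  · have h1 := CHARS_T e g y⁻¹
    rw [← Matrix.eval_charpoly, CHARS_cp g rfl hn] at h1
    simp only [Polynomial.eval_pow, Polynomial.eval_sub, Polynomial.eval_X, Polynomial.eval_one] at h1
    have h2 : ∏ a : G, (1 - CHARS_chi (e a) g * y) = y ^ Fintype.card G * ∏ a : G, (y⁻¹ - CHARS_chi (e a) g) := by
      rw [← Finset.card_univ, ← Finset.prod_const, ← Finset.prod_mul_distrib]
      refine Finset.prod_congr rfl fun a _ => ?_
      rw [mul_sub, mul_inv_cancel₀ hy]
      ring
    rw [h2, ← h1]
    have h3 : y ^ Fintype.card G = (y ^ orderOf g) ^ (Fintype.card G / orderOf g) := by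
      rw [← pow_mul, mul_comm, hn]
    rw [h3, ← mul_pow, mul_sub, mul_one, inv_pow, mul_inv_cancel₀ (pow_ne_zero _ hy)]

private theorem CHARS_comm {G : Type} [CommGroup G] [Fintype G] [DecidableEq G] :
    ∃ (ι : Type) (_ : Fintype ι) (χ : ι → (G →* ℂ)), (∀ i g, ‖χ i g‖ = 1) ∧
      (∃ ε : ℂ, (ε = 1 ∨ ε = -1) ∧ ∀ x : G → ℂ,
        Matrix.det (Matrix.of fun g h : G => x (g * h)) = ε * ∏ i, ∑ g : G, χ i g * x g) ∧
      ∀ (g : G) (y : ℂ), ∏ i, (1 - χ i g * y) =
        (1 - y ^ orderOf g) ^ (Fintype.card G / orderOf g) := by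
  classical
  have hcard : Fintype.card G = Fintype.card (AddChar (Additive G) ℂ) := by
    rw [AddChar.card_eq]
    exact Fintype.card_congr Additive.ofMul
  let e : G ≃ AddChar (Additive G) ℂ := Fintype.equivOfCardEq hcard
  refine ⟨G, inferInstance, fun a => CHARS_chi (e a), ?_, ?_, ?_⟩
  · intro i g
    exact AddChar.norm_apply (e i) (Additive.ofMul g)
  · refine ⟨((Equiv.Perm.sign (e.trans ((Equiv.inv _).trans e.symm)) : ℤ) : ℂ), ?_, fun x => CHARS_b e x⟩
    rcases Int.units_eq_one_or (Equiv.Perm.sign (e.trans ((Equiv.inv _).trans e.symm))) with h | h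
    · left
      rw [h]
      simp
    · right
      rw [h]
      simp
  · intro g y
    exact CHARS_c e g y

theorem exists_chars {G : Type} [Group G] [Fintype G] [DecidableEq G]
    (hc : ∀ a b : G, a * b = b * a) :
    ∃ (ι : Type) (_ : Fintype ι) (χ : ι → (G →* ℂ)), (∀ i g, ‖χ i g‖ = 1) ∧
      (∃ ε : ℂ, (ε = 1 ∨ ε = -1) ∧ ∀ x : G → ℂ,
        Matrix.det (Matrix.of fun g h : G => x (g * h)) = ε * ∏ i, ∑ g : G, χ i g * x g) ∧
      ∀ (g : G) (y : ℂ), ∏ i, (1 - χ i g * y) =
        (1 - y ^ orderOf g) ^ (Fintype.card G / orderOf g) := by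
  let _ : CommGroup G := { (inferInstance : Group G) with mul_comm := hc }
  exact CHARS_comm (G := G)

end

end Pool.Agent.Lib.MP_1a91b9_nuT.DG
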