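import Pool.Agent.Lib.MP_1a91b9_nuT.DB.TrD
import Pool.Agent.Lib.MP_1a91b9_nuT.DB.UnAlg
import Pool.Agent.Lib.MP_1a91b9_nuT.DB.UnMin
import Pool.Agent.Lib.MP_1a91b9_nuT.DB.ThA
import Pool.Agent.Lib.MP_1a91b9_nuT.DB.Dens
import Pool.Agent.Lib.MP_1a91b9_nuT.DB.Cl

/-!
# Residue classes modulo `μ`
-/

set_option autoImplicit false

namespace Pool.Agent.Lib.MP_1a91b9_nuT.DG

variable [CD]

open NumberField IsDedekindDomain WeierstrassCurve DB

noncomputable section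

/-- the residue classes prime to `μ` -/
abbrev U (μ : 𝓞 K) : Type := (𝓞 K ⧸ Ideal.span {μ})ˣ

/-- a representative of a residue class -/
def rp {μ : 𝓞 K} (u : U μ) : 𝓞 K := Quotient.out (u : 𝓞 K ⧸ Ideal.span {μ})

theorem mk_rp {μ : 𝓞 K} (u : U μ) :
    Ideal.Quotient.mk (Ideal.span {μ}) (rp u) = (u : 𝓞 K ⧸ Ideal.span {μ}) := Quotient.out_eq _

theorem mk_eq {μ a b : 𝓞 K} :
    Ideal.Quotient.mk (Ideal.span {μ}) a = Ideal.Quotient.mk (Ideal.span {μ}) b ↔ μ ∣ a - b := by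
  rw [Ideal.Quotient.eq, Ideal.mem_span_singleton]

theorem mk_unit {μ c : 𝓞 K} : IsUnit (Ideal.Quotient.mk (Ideal.span {μ}) c) ↔ IsCoprime c μ := by
  constructor
  · rintro ⟨v, hv⟩
    obtain ⟨d, hd⟩ := Ideal.Quotient.mk_surjective (v⁻¹ : U μ).1
    have h1 : Ideal.Quotient.mk (Ideal.span {μ}) (c * d) = Ideal.Quotient.mk (Ideal.span {μ}) 1 := by
      rw [map_mul, hd, ← hv, map_one]
      exact v.mul_inv
    rw [mk_eq] at h1
    obtain ⟨e, he⟩ := h1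
    exact ⟨d, -e, by linear_combination he⟩
  · rintro ⟨a, b, hab⟩
    have h1 : Ideal.Quotient.mk (Ideal.span {μ}) (c * a) = 1 := by
      rw [← map_one (Ideal.Quotient.mk (Ideal.span {μ})), mk_eq]
      exact ⟨-b, by linear_combination hab⟩
    rw [map_mul] at h1
    exact IsUnit.of_mul_eq_one _ h1

theorem rp_cop {μ : 𝓞 K} (u : U μ) : IsCoprime (rp u) μ := by
  rw [← mk_unit, mk_rp]
  exact u.isUnit

theorem rp_inj {μ : 𝓞 K} {u v : U μ} (h : μ ∣ rp u - rp v) : u = v := by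
  rw [← mk_eq, mk_rp, mk_rp] at h
  exact Units.ext h

theorem rp_mul {μ : 𝓞 K} (u v : U μ) : μ ∣ rp (u * v) - rp u * rp v := by
  rw [← mk_eq, mk_rp, map_mul, mk_rp, mk_rp]
  rfl

theorem rp_one {μ : 𝓞 K} : μ ∣ rp (1 : U μ) - 1 := by
  rw [← mk_eq, mk_rp, map_one]
  rfl

theorem rp_ex {μ c : 𝓞 K} (hc : IsCoprime c μ) : ∃ u : U μ, μ ∣ c - rp u := by
  obtain ⟨v, hv⟩ := mk_unit.2 hc
  refine ⟨v, ?_⟩
  rw [← mk_eq, mk_rp]
  exact hv.symm


/-- the function on the places of `L` attached to a function on the places of `N` -/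
def f2 {N L : Type} [Field N] [NumberField N] [Field L] [NumberField L] [Algebra N L] {ℓ : ℕ}
    (f : HeightOneSpectrum (𝓞 N) → ZMod ℓ) (W : HeightOneSpectrum (𝓞 L)) : ZMod ℓ :=
  (W.asIdeal.inertiaDeg (𝓞 N) : ZMod ℓ) * f (W.under (𝓞 N))


end

end Pool.Agent.Lib.MP_1a91b9_nuT.DG
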