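import Pool.Agent.Lib.MP_1a91b9_nuT.DG.Defs
import Pool.Agent.Lib.MP_1a91b9_nuT.DG.Dual

/-!
# Unramified places
-/

set_option autoImplicit false

namespace Pool.Agent.Lib.MP_1a91b9_nuT.DG

variable [CD]

open NumberField IsDedekindDomain WeierstrassCurve DB

noncomputable section

section
variable {k L : Type} [Field k] [NumberField k] [Algebra K k] [Field L] [NumberField L]
  [Algebra K L] [Algebra k L] [IsScalarTower K k L] [DecidableEq L] [IsGalois k L]


omit [Algebra K k] [Algebra K L] [IsScalarTower K k L] [DecidableEq L] in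
theorem unram_gen (W : HeightOneSpectrum (𝓞 L))
    (hI : ∀ σ : Gal(L/k), (∀ x : 𝓞 L, σ • x - x ∈ W.asIdeal) → σ = 1) :
    W.asIdeal.ramificationIdx (𝓞 k) = 1 := by
  have h1 : W.asIdeal.inertia Gal(L/k) = ⊥ := by
    rw [eq_bot_iff]
    intro σ hσ
    rw [Subgroup.mem_bot]
    exact hI σ (fun x => hσ x)
  have hp0 : W.asIdeal.under (𝓞 k) ≠ ⊥ := (W.under (𝓞 k)).ne_bot
  have hfin : Finite (𝓞 k ⧸ W.asIdeal.under (𝓞 k)) :=
    Ring.HasFiniteQuotients.finiteQuotient hp0
  have h2 := Ideal.card_inertia_eq_ramificationIdxIn (G := Gal(L/k)) (W.asIdeal.under (𝓞 k))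
    W.asIdeal
  rw [Ideal.ramificationIdxIn_eq_ramificationIdx _ W.asIdeal Gal(L/k)] at h2
  rw [← h2, h1]
  exact Nat.card_unique

end

theorem od_prime_K {β : 𝓞 K} (hβ : Prime β) (v : HeightOneSpectrum (𝓞 K))
    (hv : v.valuation K (β : K) < 1) : od v (β : K) = 1 := by
  have hbu : β ∈ v.asIdeal := (v.valuation_lt_one_iff_mem (K := K) β).1 hv
  have hsp : (Ideal.span {β} : Ideal (𝓞 K)).IsPrime := (Ideal.span_singleton_prime hβ.ne_zero).2 hβ
  have hsm : (Ideal.span {β} : Ideal (𝓞 K)).IsMaximal := hsp.isMaximal (by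
    rw [Ne, Ideal.span_singleton_eq_bot]
    exact hβ.ne_zero)
  have hu : v.asIdeal = Ideal.span {β} :=
    (hsm.eq_of_le v.isPrime.ne_top ((Ideal.span_singleton_le_iff_mem _).2 hbu)).symm
  have h4 : v.valuation K ((β : 𝓞 K) : K) = WithZero.exp (-1 : ℤ) := by
    rw [HeightOneSpectrum.valuation_of_algebraMap]
    exact v.intValuation_singleton hβ.ne_zero hu
  unfold od
  rw [h4, WithZero.log_exp, neg_neg]


end

end Pool.Agent.Lib.MP_1a91b9_nuT.DG
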