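import Pool.Agent.Lib.MP_1a91b9_nuT.S3.Main

/-!
# The partial L-series over `K`

`ZS c x s` is the sum of `conj a |a|^(-2 s)` over `a ∈ 𝓞 K`, `a = x` modulo `c`.
-/

set_option autoImplicit false

namespace Pool.Agent.Lib.MP_1a91b9_nuT.DG

variable [CD]

open NumberField

noncomputable section

/-- the partial L-series of the class of `x` modulo `c` -/
def ZS (c x : 𝓞 K) (s : ℂ) : ℂ :=
  ∑' a : 𝓞 K, haveI := Classical.dec (c ∣ a - x)
    if c ∣ a - x then (starRingEnd ℂ) (embK (a : K)) * ((‖embK (a : K)‖ : ℝ) : ℂ) ^ (-2 * s) else 0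

end

end Pool.Agent.Lib.MP_1a91b9_nuT.DG
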