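import Pool.Agent.Lib.MP_1a91b9_nuT.DG.Cna

/-!
# DG: counting classes killed by a quadratic polynomial

JOB CNT. PROOF (complete; helper30). File to imitate: `count_abs` in DB/UnAlg.lean (its private lemmas `uac_*` about the
quotient by the torsion have to be copied), `card_le_of_det`.

`det_conj`: choose bases of `M`, `V` indexed by the same finite type (`Module.finBasis`, `finCongr`, equal ranks); matrix `Q` of `Ψ`,
`A` of `φ`, `B` of `ψ`: `A * Q = Q * B`; `det Q ≠ 0` because `Ψ` is injective (`Matrix.exists_mulVec_eq_zero_iff`, `LinearMap.det` ...), so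
`det A = det B` (`Matrix.det_mul`, `mul_left_cancel₀`), `LinearMap.det_toMatrix`.

`count_absG`: `M = A ⧸ torsion` (free, finite, same rank, as in `count_abs`), `ρ' σ : Module.End ℤ M` induced by `ρ σ` (`ρ'` is multiplicative),
`u' ` the class of `u`, `φ = (ρ' τ)^2 - tr g ρ' τ + nm g`. Let `V = M × ℤ`, `τ' = (ρ' τ) × id`, `φ' = τ'^2 - tr g τ' + nm g = φ × (1 - tr g + nm g)`
(`LinearMap.prodMap`). `Ψ : (G → ℤ) → M × ℤ`, `Ψ c = (Σ_σ c σ • ρ' σ u', Σ_σ c σ)`: linear, `Ψ ∘ Lt τ = τ' ∘ Ψ` (substitution `σ ↦ τ σ`), so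
`Ψ ∘ φL = φ' ∘ Ψ` (`φL` as in `det_Lt`). Injective: if `Ψ c = 0` then `Σ c σ • ρ σ u` is torsion in `A`, so `c` is constant (`hu`), and
`Σ c σ = 0` implies `c = 0` (`Fintype.card G > 0`). The ranks are equal: `finrank M + 1 = Fintype.card G` (`hn`). By `det_conj`:
`det φ' = det φL = norm (g^n - 1)^n0` (`det_Lt`) and `det φ' = det φ * (1 - tr g + nm g)` (`LinearMap.det_prodMap` or matrices). So
`det φ ∣ norm(g^n - 1)^n0`. Let `r` with `q = ℓ^r`: `ℓ^(r+1) ∤ norm(g^n - 1)` (`hg`), so `ℓ^(r n0 + 1) ∤ norm(g^n - 1)^n0` (valuations: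
`emultiplicity_pow` / `padicValInt`), so `ℓ * q^n0 ∤ det φ`. `card_le_of_det φ (q := q^n0) (r := r * n0)` for the image of `Y` in `M` (the map
is injective on `Y` by `hne`, as in `count_abs`; `hY`, `hne` are transferred as in `count_abs`).
-/

set_option autoImplicit false

namespace Pool.Agent.Lib.MP_1a91b9_nuT.DG

variable [CD]

open NumberField IsDedekindDomain WeierstrassCurve DB

noncomputable section

theorem det_conj {M V : Type*} [AddCommGroup M] [Module.Free ℤ M] [Module.Finite ℤ M]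
    [AddCommGroup V] [Module.Free ℤ V] [Module.Finite ℤ V]
    (hr : Module.finrank ℤ V = Module.finrank ℤ M) (Ψ : V →ₗ[ℤ] M)
    (hΨ : Function.Injective Ψ) (φ : Module.End ℤ M) (ψ : Module.End ℤ V)
    (hc : ∀ x : V, Ψ (ψ x) = φ (Ψ x)) : LinearMap.det φ = LinearMap.det ψ := by
  let e : M ≃ₗ[ℤ] V := LinearEquiv.ofFinrankEq M V hr.symm
  let P : Module.End ℤ V := (e : M →ₗ[ℤ] V) ∘ₗ Ψ
  let φ2 : Module.End ℤ V := (e : M →ₗ[ℤ] V) ∘ₗ φ ∘ₗ (e.symm : V →ₗ[ℤ] M)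
  have h1 : LinearMap.det φ2 = LinearMap.det φ := LinearMap.det_conj φ e
  have h2 : P * ψ = φ2 * P := by
    refine LinearMap.ext fun x => ?_
    show e (Ψ (ψ x)) = e (φ (e.symm (e (Ψ x))))
    rw [e.symm_apply_apply, hc]
  have h3 : LinearMap.det P ≠ 0 := by
    intro h
    have h4 := LinearMap.det_eq_zero_iff_ker_ne_bot.mp h
    apply h4
    rw [LinearMap.ker_eq_bot]
    exact e.injective.comp hΨ
  have h5 := congrArg LinearMap.det h2
  rw [map_mul, map_mul, h1, mul_comm] at h5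
  exact (mul_right_cancel₀ h3 h5).symm

private theorem CNT_tors {A : Type*} [AddCommGroup A] {x : A} {m : ℤ} (hm : m ≠ 0)
    (h : m • x = 0) : (Submodule.torsion ℤ A).mkQ x = 0 := by
  rw [Submodule.mkQ_apply, Submodule.Quotient.mk_eq_zero]
  rw [Submodule.mem_torsion_iff]
  exact ⟨⟨m, mem_nonZeroDivisors_of_ne_zero hm⟩, h⟩

private theorem CNT_exists {A : Type*} [AddCommGroup A] {x : A}
    (h : (Submodule.torsion ℤ A).mkQ x = 0) : ∃ m : ℤ, m ≠ 0 ∧ m • x = 0 := by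
  rw [Submodule.mkQ_apply, Submodule.Quotient.mk_eq_zero, Submodule.mem_torsion_iff] at h
  obtain ⟨⟨m, hm⟩, h⟩ := h
  exact ⟨m, nonZeroDivisors.ne_zero hm, h⟩

private theorem CNT_end {A : Type*} [AddCommGroup A] (f : A →+ A) :
    ∃ f' : Module.End ℤ (A ⧸ Submodule.torsion ℤ A), ∀ x : A,
      f' ((Submodule.torsion ℤ A).mkQ x) = (Submodule.torsion ℤ A).mkQ (f x) := by
  have hle : Submodule.torsion ℤ A ≤ (Submodule.torsion ℤ A).comap f.toIntLinearMap := by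
    intro x hx
    rw [Submodule.mem_comap, Submodule.mem_torsion_iff]
    rw [Submodule.mem_torsion_iff] at hx
    obtain ⟨a, ha⟩ := hx
    refine ⟨a, ?_⟩
    have h1 : f.toIntLinearMap (a • x) = a • f.toIntLinearMap x := by
      rw [Submonoid.smul_def, Submonoid.smul_def, map_smul]
    rw [← h1, ha, map_zero]
  refine ⟨(Submodule.torsion ℤ A).mapQ (Submodule.torsion ℤ A) f.toIntLinearMap hle, fun x => ?_⟩
  simp [Submodule.mkQ_apply, Submodule.mapQ_apply]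

private theorem CNT_pow {N : ℤ} {ℓ r n0 : ℕ} (hℓ : ℓ.Prime) (h : ¬ ((ℓ : ℤ) ^ (r + 1)) ∣ N) :
    ¬ ((ℓ : ℤ) ^ (r * n0 + 1)) ∣ N ^ n0 := by
  have hp : Prime (ℓ : ℤ) := Nat.prime_iff_prime_int.mp hℓ
  rw [← emultiplicity_lt_iff_not_dvd] at h ⊢
  rw [emultiplicity_pow hp]
  obtain ⟨m, hm⟩ := ENat.ne_top_iff_exists.1 (ne_top_of_lt h)
  rw [← hm] at h ⊢
  have h1 : m < r + 1 := by exact_mod_cast h
  have h2 : n0 * m < r * n0 + 1 := by
    have h3 : n0 * m ≤ n0 * r := Nat.mul_le_mul_left _ (by omega)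
    have h4 : n0 * r = r * n0 := Nat.mul_comm _ _
    omega
  exact_mod_cast h2

/-- the map of the functions on the group -/
private def CNT_Psi {M : Type*} [AddCommGroup M] {G : Type*} [Fintype G] (v : G → M) :
    (G → ℤ) →ₗ[ℤ] M × ℤ where
  toFun c := (∑ σ : G, c σ • v σ, ∑ σ : G, c σ)
  map_add' c c' := by
    ext
    · simp only [Pi.add_apply, add_smul, Finset.sum_add_distrib, Prod.fst_add]
    · simp only [Pi.add_apply, Finset.sum_add_distrib, Prod.snd_add]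
  map_smul' a c := by
    ext
    · simp only [Pi.smul_apply, smul_eq_mul, mul_smul, Finset.smul_sum, Prod.smul_fst,
        RingHom.id_apply]
    · simp only [Pi.smul_apply, smul_eq_mul, Finset.mul_sum, Prod.smul_snd,
        RingHom.id_apply]

private theorem CNT_Psi_apply {M : Type*} [AddCommGroup M] {G : Type*} [Fintype G] (v : G → M)
    (c : G → ℤ) : CNT_Psi v c = (∑ σ : G, c σ • v σ, ∑ σ : G, c σ) := rfl

private theorem CNT_Lt {M : Type*} [AddCommGroup M] {G : Type*} [Group G] [Fintype G] (v : G → M)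
    (τ : G) (f : Module.End ℤ M) (hf : ∀ σ, f (v σ) = v (τ * σ)) (c : G → ℤ) :
    CNT_Psi v (Lt τ c) = (f (CNT_Psi v c).1, (CNT_Psi v c).2) := by
  rw [CNT_Psi_apply, CNT_Psi_apply]
  have e : ∀ σ : G, Lt τ c σ = c (τ⁻¹ * σ) := fun σ => rfl
  ext
  · simp only [e]
    rw [map_sum, ← Equiv.sum_comp (Equiv.mulLeft τ)]
    refine Finset.sum_congr rfl fun σ _ => ?_
    rw [Equiv.coe_mulLeft, inv_mul_cancel_left, map_smul, hf]
  · simp only [e]
    exact Equiv.sum_comp (Equiv.mulLeft τ⁻¹) c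

theorem count_absG {A : Type*} [AddCommGroup A] [Module.Finite ℤ A] {G : Type*} [Group G]
    [Fintype G] (ρ : G →* AddMonoid.End A) (hn : Module.finrank ℤ A + 1 = Fintype.card G) {u : A}
    (hu : ∀ c : G → ℤ, (∃ m : ℤ, m ≠ 0 ∧ m • ∑ σ : G, c σ • ρ σ u = 0) → ∀ σ τ : G, c σ = c τ)
    (τ : G) {n n0 : ℕ} (hτ : orderOf τ = n) (hn0 : n0 * n = Fintype.card G) {ℓ q r : ℕ}
    (hℓ : ℓ.Prime) (hq : q = ℓ ^ r) {g : 𝓞 K}
    (hg : ¬ ((ℓ * q : ℕ) : ℤ) ∣ Algebra.norm ℤ (g ^ n - 1)) (Y : Finset A)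
    (hY : ∀ y ∈ Y, ∃ (z t : A) (m : ℤ), m ≠ 0 ∧ m • t = 0 ∧
      ρ (τ ^ 2) y - Algebra.trace ℤ (𝓞 K) g • ρ τ y + Algebra.norm ℤ g • y = (ℓ : ℤ) • z + t)
    (hne : ∀ y ∈ Y, ∀ y' ∈ Y, y ≠ y' → ¬ ∃ (z t : A) (m : ℤ), m ≠ 0 ∧ m • t = 0 ∧
      y - y' = (ℓ : ℤ) • z + t) : Y.card ≤ q ^ n0 := by
  classical
  set T := Submodule.torsion ℤ A with hT
  have hex : ∀ σ : G, ∃ f' : Module.End ℤ (A ⧸ T), ∀ x : A, f' (T.mkQ x) = T.mkQ (ρ σ x) :=
    fun σ => CNT_end (ρ σ)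
  choose ρ' hρ' using hex
  have hmul : ∀ (σ σ' : G) (x : A), ρ (σ * σ') x = ρ σ (ρ σ' x) := by
    intro σ σ' x
    rw [map_mul]
    rfl
  have hfin : Module.finrank ℤ (A ⧸ T) + 1 = Fintype.card G := by
    rw [finrank_quotient_eq_of_le_torsion le_rfl, hn]
  -- the vectors
  let v : G → A ⧸ T := fun σ => T.mkQ (ρ σ u)
  have hv : ∀ σ, ρ' τ (v σ) = v (τ * σ) := by
    intro σ
    show ρ' τ (T.mkQ (ρ σ u)) = T.mkQ (ρ (τ * σ) u)
    rw [hρ', hmul]
  set tr : ℤ := Algebra.trace ℤ (𝓞 K) g with htr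
  set nm : ℤ := Algebra.norm ℤ g with hnm
  let φ : Module.End ℤ (A ⧸ T) := (ρ' τ) ^ 2 - tr • ρ' τ + nm • (1 : Module.End ℤ (A ⧸ T))
  let φ' : Module.End ℤ ((A ⧸ T) × ℤ) := φ.prodMap ((1 - tr + nm) • (1 : Module.End ℤ ℤ))
  let φL : Module.End ℤ (G → ℤ) := (Lt τ) ^ 2 - tr • Lt τ + nm • (1 : Module.End ℤ (G → ℤ))
  have hΨL : ∀ c, CNT_Psi v (Lt τ c) = (ρ' τ (CNT_Psi v c).1, (CNT_Psi v c).2) :=
    CNT_Lt v τ (ρ' τ) hv
  have hcomm : ∀ c : G → ℤ, CNT_Psi v (φL c) = φ' (CNT_Psi v c) := by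
    intro c
    have h1 : φL c = Lt τ (Lt τ c) - tr • Lt τ c + nm • c := by
      show ((Lt τ) ^ 2 - tr • Lt τ + nm • (1 : Module.End ℤ (G → ℤ))) c = _
      rw [LinearMap.add_apply, LinearMap.sub_apply, LinearMap.smul_apply, LinearMap.smul_apply,
        pow_two, Module.End.mul_apply, Module.End.one_apply]
    rw [h1, map_add, map_sub, map_smul, map_smul, hΨL (Lt τ c), hΨL c]
    have h2 : φ' (CNT_Psi v c) = (φ (CNT_Psi v c).1, (1 - tr + nm) • (CNT_Psi v c).2) := rfl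
    have h3 : φ (CNT_Psi v c).1 = ρ' τ (ρ' τ (CNT_Psi v c).1) - tr • ρ' τ (CNT_Psi v c).1 +
        nm • (CNT_Psi v c).1 := by
      show ((ρ' τ) ^ 2 - tr • ρ' τ + nm • (1 : Module.End ℤ (A ⧸ T))) (CNT_Psi v c).1 = _
      rw [LinearMap.add_apply, LinearMap.sub_apply, LinearMap.smul_apply, LinearMap.smul_apply,
        pow_two, Module.End.mul_apply, Module.End.one_apply]
    rw [h2, h3]
    generalize CNT_Psi v c = w
    ext
    · simp only [Prod.fst_add, Prod.fst_sub, Prod.smul_fst]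
    · simp only [Prod.snd_add, Prod.snd_sub, Prod.smul_snd, smul_eq_mul]
      ring
  have hinjΨ : Function.Injective (CNT_Psi v) := by
    rw [← LinearMap.ker_eq_bot, LinearMap.ker_eq_bot']
    intro c hc
    rw [CNT_Psi_apply, Prod.mk_eq_zero] at hc
    obtain ⟨hc1, hc2⟩ := hc
    have h1 : T.mkQ (∑ σ : G, c σ • ρ σ u) = 0 := by
      rw [map_sum, ← hc1]
      refine Finset.sum_congr rfl fun σ _ => ?_
      rw [map_smul]
    have h2 := hu c (CNT_exists h1)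
    funext σ
    have h3 : ∑ σ' : G, c σ' = (Fintype.card G : ℤ) * c σ := by
      rw [Finset.sum_congr rfl fun σ' _ => h2 σ' σ, Finset.sum_const, Finset.card_univ,
        nsmul_eq_mul]
    rw [hc2] at h3
    have h4 : (Fintype.card G : ℤ) ≠ 0 := by
      exact_mod_cast Fintype.card_ne_zero
    exact (mul_eq_zero.1 h3.symm).resolve_left h4
  have hrank : Module.finrank ℤ (G → ℤ) = Module.finrank ℤ ((A ⧸ T) × ℤ) := by
    rw [Module.finrank_fintype_fun_eq_card, Module.finrank_prod, Module.finrank_self, hfin]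
  have hdet := det_conj hrank (CNT_Psi v) hinjΨ φ' φL hcomm
  have hdL : LinearMap.det φL = Algebra.norm ℤ (g ^ n - 1) ^ n0 := det_Lt τ hτ hn0 g
  have hdP : LinearMap.det φ' = LinearMap.det φ *
      LinearMap.det ((1 - tr + nm) • (1 : Module.End ℤ ℤ)) := LinearMap.det_prodMap _ _
  have hdvd : LinearMap.det φ ∣ Algebra.norm ℤ (g ^ n - 1) ^ n0 :=
    ⟨_, by rw [← hdL, ← hdet, hdP]⟩
  have hdet2 : ¬ ((ℓ * q ^ n0 : ℕ) : ℤ) ∣ LinearMap.det φ := by
    intro h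
    have h1 : ((ℓ * q ^ n0 : ℕ) : ℤ) = (ℓ : ℤ) ^ (r * n0 + 1) := by
      rw [hq, ← pow_mul]
      push_cast
      ring
    have h2 : ¬ ((ℓ : ℤ) ^ (r + 1)) ∣ Algebra.norm ℤ (g ^ n - 1) := by
      intro h3
      apply hg
      have h4 : ((ℓ * q : ℕ) : ℤ) = (ℓ : ℤ) ^ (r + 1) := by
        rw [hq]
        push_cast
        ring
      rw [h4]
      exact h3
    rw [h1] at h
    exact CNT_pow hℓ h2 (h.trans hdvd)
  have hinj : Set.InjOn T.mkQ (Y : Set A) := by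
    intro y hy y' hy' hyy
    by_contra hcon
    have h0 : T.mkQ (y - y') = 0 := by rw [map_sub, hyy, sub_self]
    obtain ⟨m, hm, h⟩ := CNT_exists h0
    exact hne y hy y' hy' hcon ⟨0, y - y', m, hm, h, by simp⟩
  rw [← Finset.card_image_of_injOn hinj]
  refine card_le_of_det φ (q := q ^ n0) (r := r * n0) hℓ (by rw [hq, ← pow_mul]) hdet2
    (Y.image T.mkQ) ?_ ?_
  · intro y hy
    obtain ⟨x, hx, rfl⟩ := Finset.mem_image.mp hy
    obtain ⟨z, t, m, hm, ht, h⟩ := hY x hx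
    refine ⟨T.mkQ z, ?_⟩
    have h1 : T.mkQ (ρ (τ ^ 2) x - tr • ρ τ x + nm • x) = (ℓ : ℤ) • T.mkQ z := by
      rw [h, map_add T.mkQ ((ℓ : ℤ) • z) t, CNT_tors hm ht, add_zero, map_smul]
    rw [map_add, map_sub, map_smul, map_smul, pow_two, hmul, ← hρ' τ (ρ τ x), ← hρ' τ x] at h1
    rw [← h1]
    show ((ρ' τ) ^ 2 - tr • ρ' τ + nm • (1 : Module.End ℤ (A ⧸ T))) (T.mkQ x) = _
    rw [LinearMap.add_apply, LinearMap.sub_apply, LinearMap.smul_apply, LinearMap.smul_apply,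
      pow_two, Module.End.mul_apply, Module.End.one_apply]
  · intro y hy y' hy' hyy
    obtain ⟨x, hx, rfl⟩ := Finset.mem_image.mp hy
    obtain ⟨x', hx', rfl⟩ := Finset.mem_image.mp hy'
    rintro ⟨z, hz⟩
    obtain ⟨z, rfl⟩ := T.mkQ_surjective z
    have hxx : x ≠ x' := by
      rintro rfl
      exact hyy rfl
    have h0 : T.mkQ (x - x' - (ℓ : ℤ) • z) = 0 := by
      rw [map_sub, map_sub, map_smul, hz, sub_self]
    obtain ⟨m, hm, h⟩ := CNT_exists h0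
    exact hne x hx x' hx' hxx ⟨z, x - x' - (ℓ : ℤ) • z, m, hm, h, by abel⟩

end

end Pool.Agent.Lib.MP_1a91b9_nuT.DG
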