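import Pool.Agent.Lib.MP_1a91b9_nuT.DG.ZDefs
import Pool.Agent.Lib.MP_1a91b9_nuT.Rg.Vm
import Pool.Agent.Lib.MP_1a91b9_nuT.S7.Plug
import Pool.Agent.Lib.MP_1a91b9_nuT.D6.Main

/-!
# DG (7.3): finite sums of `E1` (generalisation of S6/Bs1)
-/

set_option autoImplicit false

namespace Pool.Agent.Lib.MP_1a91b9_nuT.DG

variable [CD]

open NumberField IsDedekindDomain WeierstrassCurve S3

noncomputable section

/-- The element of the ring of integers attached to an index. -/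
def aX (C : ℕ) (x : Fin C × Fin C) : 𝓞 K := ((x.1 : ℕ) : 𝓞 K) + ((x.2 : ℕ) : 𝓞 K) * MP_1a91b9_nuT.omO

theorem aX_emb (C : ℕ) (x : Fin C × Fin C) :
    embK (aX C x : K) = ((x.1 : ℕ) : ℂ) + ((x.2 : ℕ) : ℂ) * zt := by
  have h := kf_emb ((x.1 : ℕ) : ℤ) ((x.2 : ℕ) : ℤ)
  simp only [Int.cast_natCast] at h
  exact h

theorem aX_inj (C : ℕ) (x y : Fin C × Fin C) (e : 𝓞 K)
    (h : aX C x - aX C y = (C : 𝓞 K) * e) : x = y := by
  obtain ⟨e1, e2, he⟩ := kf_repr e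
  have h1 : ((((x.1 : ℕ) : ℤ) - ((y.1 : ℕ) : ℤ) - C * e1 : ℤ) : 𝓞 K) +
      ((((x.2 : ℕ) : ℤ) - ((y.2 : ℕ) : ℤ) - C * e2 : ℤ) : 𝓞 K) * MP_1a91b9_nuT.omO = 0 := by
    rw [he] at h
    unfold aX at h
    push_cast
    linear_combination h
  obtain ⟨h2, h3⟩ := bs1_zeroO _ _ h1
  have key : ∀ (u v : Fin C) (f : ℤ), ((u : ℕ) : ℤ) - ((v : ℕ) : ℤ) - C * f = 0 → u = v := by
    intro u v f h4
    have hu := u.2
    have hv := v.2
    apply Fin.ext
    have h5 : ((u : ℕ) : ℤ) - ((v : ℕ) : ℤ) = (C : ℤ) * f := by linarith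
    have h6 : |((u : ℕ) : ℤ) - ((v : ℕ) : ℤ)| < (C : ℤ) := by
      rw [abs_lt]
      constructor <;> omega
    have h7 : ((u : ℕ) : ℤ) - ((v : ℕ) : ℤ) = 0 :=
      Int.eq_zero_of_abs_lt_dvd (Dvd.intro _ h5.symm) h6
    omega
  exact Prod.ext (key _ _ _ h2) (key _ _ _ h3)

theorem aX_surj (C : ℕ) (hC : 0 < C) (a : 𝓞 K) :
    ∃ (x : Fin C × Fin C) (e : 𝓞 K), a - aX C x = (C : 𝓞 K) * e := by
  obtain ⟨p, q, rfl⟩ := kf_repr a
  have hpos : (0 : ℤ) < (C : ℤ) := by exact_mod_cast hC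
  have key : ∀ u : ℤ, ∃ (v : Fin C) (f : ℤ), u = ((v : ℕ) : ℤ) + C * f := by
    intro u
    have h1 := Int.emod_nonneg u hpos.ne'
    have h2 := Int.emod_lt_of_pos u hpos
    refine ⟨⟨(u % (C : ℤ)).toNat, by omega⟩, u / (C : ℤ), ?_⟩
    have h3 := Int.emod_add_mul_ediv u (C : ℤ)
    simp only [Int.toNat_of_nonneg h1]
    exact h3.symm
  obtain ⟨v1, f1, h1⟩ := key p
  obtain ⟨v2, f2, h2⟩ := key q
  refine ⟨(v1, v2), (f1 : 𝓞 K) + (f2 : 𝓞 K) * MP_1a91b9_nuT.omO, ?_⟩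
  unfold aX
  rw [h1, h2]
  push_cast
  ring

open Classical in
theorem fin_sum {C : ℕ} (hC : 0 < C) {d r : 𝓞 K} (hd : d ∣ (C : 𝓞 K)) :
    ∑ x : Fin C × Fin C, (if d ∣ aX C x - r then
      (C : ℂ)⁻¹ * E1 (embK (aX C x : K) / C) else 0) =
      (embK (d : K))⁻¹ * E1 (embK (r : K) / embK (d : K)) := by
  obtain ⟨e, he⟩ := hd
  have hC0 : (C : 𝓞 K) ≠ 0 := by exact_mod_cast hC.ne'
  have hd0 : d ≠ 0 := fun h => hC0 (by rw [he, h, zero_mul])
  have he0 : e ≠ 0 := fun h => hC0 (by rw [he, h, mul_zero])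
  have hCC : (C : ℂ) ≠ 0 := by exact_mod_cast hC.ne'
  have hde : embK (d : K) * embK (e : K) = C := by
    rw [← map_mul]
    have h2 : ((d : K) * (e : K)) = ((d * e : 𝓞 K) : K) := rfl
    rw [h2, ← he]
    simp
  have hdC : embK (d : K) ≠ 0 := fun h => hCC (by rw [← hde, h, zero_mul])
  have heC : embK (e : K) ≠ 0 := fun h => hCC (by rw [← hde, h, mul_zero])
  rw [← Finset.sum_filter, ← Finset.mul_sum, ← Finset.sum_subtype_eq_sum_filter]
  have hw : ∀ x : {x : Fin C × Fin C // d ∣ aX C x - r}, ∃ w : 𝓞 K, aX C x.1 - r = d * w :=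
    fun x => x.2
  choose ρ hρ using hw
  have h1 : ∀ x : {x : Fin C × Fin C // d ∣ aX C x - r}, E1 (embK (aX C x.1 : K) / C) =
      E1 (embK (r : K) / C + embK (ρ x : K) / embK (e : K)) := by
    intro x
    congr 1
    have h2 : embK (aX C x.1 : K) = embK (r : K) + embK (d : K) * embK (ρ x : K) := by
      have h3 : aX C x.1 = r + d * ρ x := by rw [← hρ x]; ring
      rw [h3]
      have h4 : ((r + d * ρ x : 𝓞 K) : K) = (r : K) + (d : K) * (ρ x : K) := rfl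
      rw [h4, map_add, map_mul]
    rw [h2, ← hde]
    field_simp
  have h5 : ∀ y : 𝓞 K, ∃! i : {x : Fin C × Fin C // d ∣ aX C x - r}, e ∣ y - ρ i := by
    intro y
    obtain ⟨x, f, hx⟩ := aX_surj C hC (r + d * y)
    have hxa : aX C x - r = d * (y - e * f) := by
      rw [he] at hx
      linear_combination -hx
    refine ⟨⟨x, ⟨_, hxa⟩⟩, ?_, ?_⟩
    · have h6 := hρ ⟨x, ⟨_, hxa⟩⟩
      have h7 : d * ρ ⟨x, ⟨_, hxa⟩⟩ = d * (y - e * f) := by
        rw [← h6]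
        exact hxa
      have h8 := mul_left_cancel₀ hd0 h7
      exact ⟨f, by rw [h8]; ring⟩
    · rintro ⟨x', hx'⟩ ⟨g, hg⟩
      have h6 := hρ ⟨x', hx'⟩
      apply Subtype.ext
      apply aX_inj C x' x (f - g)
      rw [he]
      have h7 : aX C x' - r = d * (y - e * g) := by
        rw [← hg]
        have h8 : aX C x' - r = d * ρ ⟨x', hx'⟩ := h6
        rw [h8]
        ring
      linear_combination h7 - hxa
  have h9 := E1_dist_O he0 h5 (embK (r : K) / C)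
  have h10 : ∑ x ∈ Finset.subtype (fun x => d ∣ aX C x - r) Finset.univ,
      E1 (embK (aX C (x : Fin C × Fin C) : K) / C) =
      ∑ x : {x : Fin C × Fin C // d ∣ aX C x - r}, E1 (embK (aX C x.1 : K) / C) := by
    apply Finset.sum_congr
    · ext x
      simp
    · intro x _
      rfl
  rw [h10, Finset.sum_congr rfl fun x _ => h1 x, h9]
  have h11 : embK (e : K) * (embK (r : K) / C) = embK (r : K) / embK (d : K) := by
    rw [← hde]
    field_simp
  rw [h11, ← hde]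
  field_simp

open Classical in
/-- The smoothed sum. -/
theorem fin_sum2 {C : ℕ} (hC : 0 < C) {c b r : 𝓞 K} (hc : b * c ∣ (C : 𝓞 K)) (h1 : c ∣ b - 1) :
    ∑ x : Fin C × Fin C, (if c ∣ aX C x - r then 1 - ((‖embK (b : K)‖ ^ 2 : ℝ) : ℂ) *
      (if b ∣ aX C x then 1 else 0) else 0 : ℂ) * ((C : ℂ)⁻¹ * E1 (embK (aX C x : K) / C)) =
      (1 - (starRingEnd ℂ) (embK (b : K))) *
        ((embK (c : K))⁻¹ * E1 (embK (r : K) / embK (c : K))) := by
  have hC0 : (C : 𝓞 K) ≠ 0 := by exact_mod_cast hC.ne'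
  have hb0 : b ≠ 0 := fun h => hC0 (by
    obtain ⟨e, he⟩ := hc
    rw [he, h, zero_mul, zero_mul])
  have hbC : embK (b : K) ≠ 0 := by
    rw [map_ne_zero]
    intro h
    exact hb0 (RingOfIntegers.ext h)
  have hc' : c ∣ (C : 𝓞 K) := dvd_trans (dvd_mul_left _ _) hc
  have hc0 : c ≠ 0 := fun h => hC0 (by
    obtain ⟨e, he⟩ := hc'
    rw [he, h, zero_mul])
  have hcC : embK (c : K) ≠ 0 := by
    rw [map_ne_zero]
    intro h
    exact hc0 (RingOfIntegers.ext h)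
  have a1 := fin_sum hC (r := r) hc'
  have a2 := fin_sum hC (r := b * r) hc
  have key : ∀ a : 𝓞 K, (c ∣ a - r ∧ b ∣ a) ↔ b * c ∣ a - b * r := by
    intro a
    obtain ⟨f, hf⟩ := h1
    constructor
    · rintro ⟨⟨u, hu⟩, ⟨v, hv⟩⟩
      refine ⟨u - f * v, ?_⟩
      have hr : r = a - c * u := by rw [← hu]; ring
      rw [hr, hv]
      linear_combination (-(b * v)) * hf
    · rintro ⟨u, hu⟩
      refine ⟨⟨b * u + f * r, ?_⟩, ⟨r + c * u, ?_⟩⟩
      · linear_combination hu + r * hf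
      · linear_combination hu
  have e2 : embK ((b * c : 𝓞 K) : K) = embK (b : K) * embK (c : K) := by
    have h4 : ((b * c : 𝓞 K) : K) = (b : K) * (c : K) := rfl
    rw [h4, map_mul]
  have e3 : embK ((b * r : 𝓞 K) : K) = embK (b : K) * embK (r : K) := by
    have h4 : ((b * r : 𝓞 K) : K) = (b : K) * (r : K) := rfl
    rw [h4, map_mul]
  have e4 : embK (b : K) * embK (r : K) / (embK (b : K) * embK (c : K)) =
      embK (r : K) / embK (c : K) := by
    field_simp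
  rw [e2, e3, e4] at a2
  have hn : ((‖embK (b : K)‖ ^ 2 : ℝ) : ℂ) = embK (b : K) * (starRingEnd ℂ) (embK (b : K)) := by
    rw [Complex.mul_conj, Complex.normSq_eq_norm_sq]
  have h5 : ∀ x : Fin C × Fin C, (if c ∣ aX C x - r then 1 - ((‖embK (b : K)‖ ^ 2 : ℝ) : ℂ) *
      (if b ∣ aX C x then 1 else 0) else 0 : ℂ) * ((C : ℂ)⁻¹ * E1 (embK (aX C x : K) / C)) =
      (if c ∣ aX C x - r then (C : ℂ)⁻¹ * E1 (embK (aX C x : K) / C) else 0) -
      ((‖embK (b : K)‖ ^ 2 : ℝ) : ℂ) * (if b * c ∣ aX C x - b * r then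
        (C : ℂ)⁻¹ * E1 (embK (aX C x : K) / C) else 0) := by
    intro x
    by_cases c1 : c ∣ aX C x - r
    · by_cases c2 : b ∣ aX C x
      · rw [if_pos c1, if_pos c2, if_pos c1, if_pos ((key _).1 ⟨c1, c2⟩)]
        ring
      · rw [if_pos c1, if_neg c2, if_pos c1, if_neg (fun h => c2 ((key _).2 h).2)]
        ring
    · rw [if_neg c1, if_neg c1, if_neg (fun h => c1 ((key _).2 h).1)]
      ring
  rw [Finset.sum_congr rfl fun x _ => h5 x, Finset.sum_sub_distrib, ← Finset.mul_sum, a1, a2, hn]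
  field_simp

end

end Pool.Agent.Lib.MP_1a91b9_nuT.DG
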